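import Pool.Agent.H70.RK.T2

/-! ADB: composition of adaptive computations. -/

set_option autoImplicit false

namespace Pool.Agent.H79.RK

open Pool.Agent.H70.RK

/-- monotonicity in the number of questions -/
theorem adp_mono {V α : Type} {q : ((V → Bool) → Bool) → Prop} {c c' : ℕ} {g : (V → Bool) → α}
    (h : Adp q c g) (hc : c ≤ c') : Adp q c' g := by
  induction h generalizing c' with
  | pure c a => exact Adp.pure c' a
  | ask c p g g0 g1 hp h0 h1 hg1 hg0 ih0 ih1 =>
    obtain ⟨d, rfl⟩ : ∃ d, c' = d + 1 := ⟨c' - 1, by omega⟩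
    exact Adp.ask d p g g0 g1 hp (ih0 (by omega)) (ih1 (by omega)) hg1 hg0

theorem pf_ADB : Pool.Agent.H70.RK.T_ADB := by
  intro V α β q c c' g h hg hh
  induction hg with
  | pure c a => exact adp_mono (hh a) (Nat.le_add_left _ _)
  | ask c p g g0 g1 hp h0 h1 hg1 hg0 ih0 ih1 =>
    have e : c + 1 + c' = (c + c') + 1 := by omega
    rw [e]
    refine Adp.ask (c + c') p _ (fun X => h (g0 X) X) (fun X => h (g1 X) X) hp ih0 ih1 ?_ ?_
    · intro X hX
      rw [hg1 X hX]
    · intro X hX
      rw [hg0 X hX]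

end Pool.Agent.H79.RK
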